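import Pool.Agent.helper45.SAB.Base

/-!
# Abelian kernels: the difference term

Helper file for `MP_e88537_al`.
-/

set_option autoImplicit false

universe u v

namespace Pool.Agent.helper45.SAB

open Pool.Agent.Results.MP_e88537_al.NilpotentLoops

variable {Q : Type u} [Mul Q] [One Q] {i : Q → Q} {K : Type v} [Mul K] {f : Q → K}

/-- The difference term. -/
def mm (i : Q → Q) (a b c : Q) : Q := (a * i b) * c

/-- The setting: a homomorphism `f` whose kernel congruence is abelian. -/
structure Ab (f : Q → K) (i : Q → Q) : Prop extends Sy Q i where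
  hom : ∀ x y : Q, f (x * y) = f x * f y
  ab : ∀ a1 b1 c1 a2 b2 c2 : Q, f a1 = f b1 → f b1 = f c1 → f a2 = f b2 → f b2 = f c2 →
    mm i a1 b1 c1 * mm i a2 b2 c2 = mm i (a1 * a2) (b1 * b2) (c1 * c2)

theorem mm_left (h : Sy Q i) (b c : Q) : mm i b b c = c := by
  unfold mm
  rw [h.ri, h.o1]

theorem mm_right (h : Sy Q i) (a b : Q) : mm i a b b = a := h.r' b a

theorem f_mul (h : Ab f i) {a b c d : Q} (h1 : f a = f b) (h2 : f c = f d) : f (a * c) = f (b * d) := by
  rw [h.hom, h.hom, h1, h2]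

theorem f_inv (h : Ab f i) {a b : Q} (h1 : f a = f b) : f (i a) = f (i b) := by
  have e1 : f (a * i b) = f (a * i a) := by
    rw [h.ri a, ← h.ri b]
    exact f_mul h h1 rfl
  have e2 : f (i a * (a * i b)) = f (i a * (a * i a)) := f_mul h rfl e1
  rw [h.l, h.l] at e2
  exact e2.symm

/-- Triples in one class. -/
structure Tr (f : Q → K) where
  a : Q
  b : Q
  c : Q
  ab : f a = f b
  bc : f b = f c

/-- Constant triple. -/
def cst (f : Q → K) (a : Q) : Tr f := ⟨a, a, a, rfl, rfl⟩

/-- Componentwise product. -/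
def tmul (h : Ab f i) (s t : Tr f) : Tr f :=
  ⟨s.a * t.a, s.b * t.b, s.c * t.c, f_mul h s.ab t.ab, f_mul h s.bc t.bc⟩

/-- Componentwise inverse. -/
def tinv (h : Ab f i) (s : Tr f) : Tr f := ⟨i s.a, i s.b, i s.c, f_inv h s.ab, f_inv h s.bc⟩

/-- The difference term on triples. -/
def tm (i : Q → Q) (s : Tr f) : Q := mm i s.a s.b s.c

theorem tm_mul (h : Ab f i) (s t : Tr f) : tm i (tmul h s t) = tm i s * tm i t :=
  (h.ab _ _ _ _ _ _ s.ab s.bc t.ab t.bc).symm

theorem tm_cst (h : Ab f i) (a : Q) : tm i (cst f a) = a := mm_left h.toSy a a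

theorem tm_inv (h : Ab f i) (s : Tr f) : tm i (tinv h s) = i (tm i s) := by
  have e : tm i s * tm i (tinv h s) = 1 := by
    rw [← tm_mul h]
    show mm i (s.a * i s.a) (s.b * i s.b) (s.c * i s.c) = 1
    rw [h.ri, h.ri, h.ri, mm_left h.toSy]
  apply h.cl (x := tm i s)
  rw [e, h.ri]

/-- `Y1 = p' ((r p) q)`. -/
def Y1 (i : Q → Q) (q r p : Q) : Q := i p * ((r * p) * q)

/-- `Y2 = (p' r) (p q)`. -/
def Y2 (i : Q → Q) (q r p : Q) : Q := (i p * r) * (p * q)

/-- The defect. -/
def psi (i : Q → Q) (q r p : Q) : Q := Y1 i q r p * i (Y2 i q r p)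

theorem mf_psi (h : Sy Q i) (q r p : Q) : Mf q r p ↔ psi i q r p = 1 := by
  rw [mf_iff' h]
  unfold psi Y1 Y2
  constructor
  · intro e
    rw [e, h.ri]
  · intro e
    have e2 := congrArg (fun t => t * ((i p * r) * (p * q))) e
    simpa only [h.r', h.o1] using e2

/-- The defect is compatible with the difference term. -/
theorem psi_tm (h : Ab f i) (s t w : Tr f) :
    psi i (tm i s) (tm i t) (tm i w) =
      mm i (psi i s.a t.a w.a) (psi i s.b t.b w.b) (psi i s.c t.c w.c) := by
  have e : psi i (tm i s) (tm i t) (tm i w) =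
      tm i (tmul h (tmul h (tinv h w) (tmul h (tmul h t w) s))
        (tinv h (tmul h (tmul h (tinv h w) t) (tmul h w s)))) := by
    simp only [tm_mul, tm_inv]
    rfl
  rw [e]
  rfl

/-- Kernel elements. -/
def Ker (f : Q → K) (x : Q) : Prop := f x = f 1

theorem ker_mul (h : Ab f i) {x g : Q} (hx : Ker f x) : f (x * g) = f g := by
  have := f_mul h (a := x) (b := 1) (c := g) (d := g) hx rfl
  rwa [h.o1] at this

theorem ker_mul' (h : Ab f i) {x g : Q} (hx : Ker f x) : f (g * x) = f g := by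
  have := f_mul h (a := g) (b := g) (c := x) (d := 1) rfl hx
  rwa [h.o2] at this

theorem ker_inv (h : Ab f i) {x : Q} (hx : Ker f x) : Ker f (i x) := by
  have := f_inv h hx
  rwa [h.i1] at this

theorem ker_mm (h : Ab f i) {x y : Q} (hx : Ker f x) (hy : Ker f y) : Ker f (x * y) :=
  (ker_mul h hx).trans hy

theorem ker_quot (h : Ab f i) {a b : Q} (e : f a = f b) : Ker f (a * i b) := by
  show f (a * i b) = f 1
  rw [← h.ri b]
  exact f_mul h e rfl

theorem ker_quot' (h : Ab f i) {a b : Q} (e : f a = f b) : Ker f (i b * a) := by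
  show f (i b * a) = f 1
  rw [← h.li b]
  exact f_mul h rfl e

/-- Kernel elements act associatively. -/
theorem act (h : Ab f i) {n1 n2 : Q} (h1 : Ker f n1) (h2 : Ker f n2) (g : Q) :
    (n1 * n2) * g = n1 * (n2 * g) := by
  have e := h.ab n1 1 n2 g g g h1 h2.symm rfl rfl
  simp only [mm, h.i1, h.o2, h.o1, h.ri, h.r] at e
  exact e

theorem comm (h : Ab f i) {n1 n2 : Q} (h1 : Ker f n1) (h2 : Ker f n2) : n1 * n2 = n2 * n1 := by
  have e := h.ab 1 1 n1 n2 1 1 rfl h1.symm h2 rfl
  simp only [mm, h.i1, h.o2, h.o1] at e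
  exact e

/-- The operator of right multiplication: `(n g) k = A n (g k)`. -/
def opA (i : Q → Q) (g k n : Q) : Q := ((n * g) * k) * i (g * k)

/-- The operator of left multiplication: `g (n k) = B n (g k)`. -/
def opB (i : Q → Q) (g k n : Q) : Q := (g * (n * k)) * i (g * k)

theorem opA_ker (h : Ab f i) (g k : Q) {n : Q} (hn : Ker f n) : Ker f (opA i g k n) :=
  ker_quot h (f_mul h (ker_mul h hn) rfl)

theorem opB_ker (h : Ab f i) (g k : Q) {n : Q} (hn : Ker f n) : Ker f (opB i g k n) :=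
  ker_quot h (f_mul h rfl (ker_mul h hn))

theorem opA_eq (h : Sy Q i) (g k n : Q) : (n * g) * k = opA i g k n * (g * k) := (h.r' _ _).symm

theorem opB_eq (h : Sy Q i) (g k n : Q) : g * (n * k) = opB i g k n * (g * k) := (h.r' _ _).symm

theorem opA_add (h : Ab f i) (g k : Q) {n1 n2 : Q} (h1 : Ker f n1) (h2 : Ker f n2) :
    opA i g k (n1 * n2) = opA i g k n1 * opA i g k n2 := by
  have e1 : mm i (n1 * g) g (n2 * g) = (n1 * n2) * g := by
    rw [act h h1 h2]
    unfold mm
    rw [h.r]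
  have e2 := h.ab (n1 * g) g (n2 * g) k k k (ker_mul h h1) (ker_mul h h2).symm rfl rfl
  rw [e1, mm_left h.toSy] at e2
  have e3 : ((n1 * n2) * g) * k = (opA i g k n1 * opA i g k n2) * (g * k) := by
    rw [e2, act h (opA_ker h g k h1) (opA_ker h g k h2), ← opA_eq h.toSy]
    rfl
  unfold opA at e3 ⊢
  rw [e3, h.r]

theorem opA_class (h : Ab f i) {g g' k k' n : Q} (hg : f g = f g') (hk : f k = f k') (hn : Ker f n) :
    opA i g k n = opA i g' k' n := by
  have e1 : mm i (n * g) g g' = n * g' := by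
    unfold mm
    rw [h.r]
  have e2 := h.ab (n * g) g g' k k k' (ker_mul h hn) hg rfl hk
  rw [e1, mm_left h.toSy] at e2
  have e3 : (n * g') * k' = opA i g k n * (g' * k') := by
    rw [e2]
    rfl
  unfold opA at e3 ⊢
  rw [e3, h.r]

theorem opB_class (h : Ab f i) {g g' k k' n : Q} (hg : f g = f g') (hk : f k = f k') (hn : Ker f n) :
    opB i g k n = opB i g' k' n := by
  have e1 : mm i (n * k) k k' = n * k' := by
    unfold mm
    rw [h.r]
  have e2 := h.ab g g g' (n * k) k k' rfl hg (ker_mul h hn) hk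
  rw [e1, mm_left h.toSy] at e2
  have e3 : g' * (n * k') = opB i g k n * (g' * k') := by
    rw [e2]
    rfl
  unfold opB at e3 ⊢
  rw [e3, h.r]

theorem opB_inj (h : Sy Q i) (g k : Q) {n n' : Q} (e : opB i g k n = opB i g k n') : n = n' := by
  have e1 := opB_eq h g k n
  rw [e, ← opB_eq h] at e1
  exact h.cr (h.cl e1)

end Pool.Agent.helper45.SAB
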