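import Pool.Agent.Results.MP_e88537_al.NilpotentLoops

/-!
# Abelian kernels

Helper file for `MP_e88537_al`: a homomorphism from a semi-universally flexible IP loop with abelian kernel (in the
sense of commutator theory).
-/

set_option autoImplicit false

universe u v

namespace Pool.Agent.helper45.SAB

open Pool.Agent.Results.MP_e88537_al.NilpotentLoops

variable {Q : Type u} [Mul Q] [One Q] {i : Q → Q}

/-- The Moufang identity at a triple. -/
def Mf (z p y : Q) : Prop := (z * (p * y)) * z = (z * p) * (y * z)

/-- A system with a neutral element. -/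
structure Sy (Q : Type u) [Mul Q] [One Q] (i : Q → Q) : Prop extends Sys Q i where
  o1 : ∀ x : Q, 1 * x = x
  o2 : ∀ x : Q, x * 1 = x

theorem Sy.ri (h : Sy Q i) (x : Q) : x * i x = 1 := by
  have := h.r x 1
  rwa [h.o1] at this

theorem Sy.li (h : Sy Q i) (x : Q) : i x * x = 1 := by
  have := h.l x 1
  rwa [h.o2] at this

theorem Sy.i1 (h : Sy Q i) : i (1 : Q) = 1 := by
  have := h.ri 1
  rwa [h.o1] at this

theorem Sy.cl (h : Sy Q i) {x y z : Q} (e : x * y = x * z) : y = z := by
  have := congrArg (fun t => i x * t) e
  simpa only [h.l] using this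

theorem Sy.cr (h : Sy Q i) {x y z : Q} (e : y * x = z * x) : y = z := by
  have := congrArg (fun t => t * i x) e
  simpa only [h.r] using this

/-- Right form of the Moufang identity. -/
theorem mf_iff (h : Sy Q i) (p q r : Q) : Mf p q r ↔ (p * (q * r)) * i q = (p * q) * (r * i q) := by
  have e := h.s p q (r * i q)
  rw [h.r'] at e
  -- e : (p * q) * (r * p) = (((p * q) * (r * i q)) * q) * p
  constructor
  · intro hM
    unfold Mf at hM
    rw [e] at hM
    have h2 := h.cr hM
    have h3 := congrArg (fun t => t * i q) h2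
    simpa only [h.r] using h3
  · intro hR
    unfold Mf
    rw [e, ← hR, h.r']

/-- Left form of the Moufang identity: `Y1 = Y2`. -/
theorem mf_iff' (h : Sy Q i) (q r p : Q) : Mf q r p ↔ i p * ((r * p) * q) = (i p * r) * (p * q) := by
  have e := h.s' q p (i p * r)
  rw [h.l'] at e
  -- e : (q * r) * (p * q) = q * (p * ((i p * r) * (p * q)))
  constructor
  · intro hM
    unfold Mf at hM
    rw [e, ← h.fl] at hM
    have h2 := h.cl hM
    have h3 := congrArg (fun t => i p * t) h2
    simpa only [h.l] using h3
  · intro hR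
    unfold Mf
    rw [e, ← hR, h.l', h.fl]

/-- Rotation. -/
theorem rot (h : Sy Q i) {z p y : Q} (hM : Mf z p y) : Mf p y z := by
  rw [mf_iff h]
  set x := p * y with hx
  set c := x * z with hc
  have hV : z * c = (z * p) * (y * z) := by
    unfold Mf at hM
    rw [hc, hx, h.fl]
    exact hM
  have hC : i c = i z * i x := by rw [hc, h.im]
  have kval : (i y * c) * (i z * i y) = i y * p := by
    have e := h.s' (i y) (i z) (z * c)
    rw [h.l] at e
    rw [e, hV]
    have e1 : ((z * p) * (y * z)) * (i z * i y) = z * p := by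
      rw [← h.im y z, h.r]
    rw [e1, h.l]
  have ky : ((i y * c) * (i z * i y)) * y = i y * x := by
    rw [kval]
    have f := h.fl y (i y * p)
    rw [h.l'] at f
    have : i y * (y * ((i y * p) * y)) = i y * (p * y) := by rw [f]
    rwa [h.l] at this
  have dd : (i y * c) * (i z * i c) = (((i y * c) * (i z * i y)) * y) * i c := by
    have e := h.s (i c) y ((i y * c) * (i z * i y))
    have e0 : i (i y * c) = i c * y := by rw [h.im, h.ii]
    have e1 : (i c * y) * ((i y * c) * (i z * i y)) = i z * i y := by rw [← e0, h.l]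
    rw [e1, h.r'] at e
    rw [← e, ← e0, h.l']
  have ff : z * ((i y * x) * i c) = ((z * i y) * x) * i c := by
    have e := h.s (i z * i x) x (z * i y)
    rw [h.r', h.l] at e
    have e1 : z * (i z * (((z * i y) * x) * (i z * i x))) = z * ((i y * x) * (i z * i x)) := by rw [e]
    rw [h.l'] at e1
    rw [hC, e1]
  have cc : ((z * i y) * c) * (i z * i c) = ((z * i y) * x) * i c := by
    have e := h.s (i z * i c) c (z * i y)
    rw [h.r', h.l] at e
    have e1 : z * (i z * (((z * i y) * c) * (i z * i c))) = z * ((i y * c) * (i z * i c)) := by rw [e]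
    rw [h.l'] at e1
    rw [e1, dd, ky, ff]
  have bb : ((z * i y) * c) * i y = (z * i y) * (x * (z * i y)) := by
    have e := h.s (z * i y) c (i z * i c)
    rw [h.r', h.l] at e
    rw [e, cc, h.r', ← h.fl]
  have VY : (z * c) * i y = z * (x * (z * i y)) := by
    have e := h.s' (z * i y) (i z) (z * c)
    rw [h.l, h.l] at e
    rw [bb] at e
    have e1 := h.cl e
    rw [e1, h.l']
  have S1 : ((z * p) * (y * z)) * i y = z * ((p * (y * z)) * i y) := by
    have e := h.s (i y) (y * z) p
    rw [h.l] at e
    exact e.symm
  rw [hV, S1] at VY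
  exact h.cl VY

end Pool.Agent.helper45.SAB
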