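import Pool.Agent.helper45.SAB.Split

/-!
# Abelian kernels with a Moufang supplement

Helper file for `MP_e88537_al`.
-/

set_option autoImplicit false

universe u v

namespace Pool.Agent.helper45.SAB

open Pool.Agent.Results.MP_e88537_al.NilpotentLoops

variable {Q : Type u} [Mul Q] [One Q] {i : Q → Q} {K : Type v} [Mul K] {f : Q → K}

/-- The kernel as a commutative group. -/
@[reducible] def kg (h : Ab f i) : CommGroup {x : Q // Ker f x} where
  mul a b := ⟨a.1 * b.1, ker_mm h a.2 b.2⟩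
  one := ⟨1, rfl⟩
  inv a := ⟨i a.1, ker_inv h a.2⟩
  mul_assoc a b c := Subtype.ext (act h a.2 b.2 c.1)
  one_mul a := Subtype.ext (h.o1 a.1)
  mul_one a := Subtype.ext (h.o2 a.1)
  inv_mul_cancel a := Subtype.ext (h.li a.1)
  mul_comm a b := Subtype.ext (comm h a.2 b.2)

theorem alg (h : Ab f i) {Au Av Aw a s1 t1 y : Q} (k1 : Ker f Au) (k2 : Ker f Av) (k3 : Ker f Aw) (k4 : Ker f a)
    (k5 : Ker f s1) (k6 : Ker f t1) (k7 : Ker f y) (e1 : Au * s1 = a * y) (e2 : s1 * t1 = Av) (e3 : a * t1 = Aw)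
    (e4 : Aw = Au * Av) : y = 1 := by
  let _ := kg h
  have f1 : (⟨Au, k1⟩ : {x : Q // Ker f x}) * ⟨s1, k5⟩ = ⟨a, k4⟩ * ⟨y, k7⟩ := Subtype.ext e1
  have f2 : (⟨s1, k5⟩ : {x : Q // Ker f x}) * ⟨t1, k6⟩ = ⟨Av, k2⟩ := Subtype.ext e2
  have f3 : (⟨a, k4⟩ : {x : Q // Ker f x}) * ⟨t1, k6⟩ = ⟨Aw, k3⟩ := Subtype.ext e3
  have f4 : (⟨Aw, k3⟩ : {x : Q // Ker f x}) = ⟨Au, k1⟩ * ⟨Av, k2⟩ := Subtype.ext e4
  have key : (⟨y, k7⟩ : {x : Q // Ker f x}) = 1 := by
    have g1 : (⟨a, k4⟩ : {x : Q // Ker f x}) * ⟨t1, k6⟩ * ⟨y, k7⟩ = ⟨a, k4⟩ * ⟨t1, k6⟩ := by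
      calc (⟨a, k4⟩ : {x : Q // Ker f x}) * ⟨t1, k6⟩ * ⟨y, k7⟩
          = (⟨a, k4⟩ * ⟨y, k7⟩) * ⟨t1, k6⟩ := mul_right_comm _ _ _
        _ = (⟨Au, k1⟩ * ⟨s1, k5⟩) * ⟨t1, k6⟩ := by rw [f1]
        _ = ⟨Au, k1⟩ * (⟨s1, k5⟩ * ⟨t1, k6⟩) := mul_assoc _ _ _
        _ = ⟨Au, k1⟩ * ⟨Av, k2⟩ := by rw [f2]
        _ = ⟨Aw, k3⟩ := f4.symm
        _ = ⟨a, k4⟩ * ⟨t1, k6⟩ := f3.symm
    exact mul_eq_left.mp g1
  exact congrArg Subtype.val key

theorem f_Y2 (h : Ab f i) {q q' r r' p p' : Q} (hq : f q = f q') (hr : f r = f r') (hp : f p = f p') :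
    f (Y2 i q r p) = f (Y2 i q' r' p') := f_mul h (f_mul h (f_inv h hp) hr) (f_mul h hp hq)

/-- The classes satisfy the Moufang identity. -/
def HK (f : Q → K) (i : Q → Q) : Prop := ∀ q r p : Q, f (Y1 i q r p) = f (Y2 i q r p)

theorem psi_ker (h : Ab f i) (hK : HK f i) (q r p : Q) : Ker f (psi i q r p) := ker_quot h (hK q r p)

theorem psi_r (h : Sy Q i) (q r p : Q) : psi i (q * r) r p = opA i (Y2 i q r p) r (psi i q r p) := by
  have e : Y1 i (q * r) r p = opA i (Y2 i q r p) r (psi i q r p) * Y2 i (q * r) r p := by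
    rw [Y1_r h, Y2_r h, ← opA_eq h, ← Y1_psi h]
  unfold psi at e ⊢
  rw [e, h.r]

theorem VV_D (h : Sy Q i) (q r p : Q) :
    VV q r p = opB i q (p * Y2 i q r p) (opB i p (Y2 i q r p) (psi i q r p)) * UU q r p := by
  rw [VV_eq h, UU_eq h, Y1_psi h, opB_eq h p, opB_eq h q]

theorem psi_shift (h : Ab f i) (hK : HK f i) {x : Q} (hx : Ker f x) (q r p : Q) :
    psi i (x * q) r p = psi i q (r * i x) ((x * p) * x) := by
  have hX := ker_inv h hx
  have cq : f (x * q) = f q := ker_mul h hx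
  have cr : f r = f (r * i x) := (ker_mul' h hX).symm
  have cp : f p = f ((x * p) * x) := ((ker_mul' h hx).trans (ker_mul h hx)).symm
  have e1 := VV_D h.toSy (x * q) r p
  have e2 := VV_D h.toSy q (r * i x) ((x * p) * x)
  have k1 := psi_ker h hK (x * q) r p
  have cY : f (Y2 i (x * q) r p) = f (Y2 i q (r * i x) ((x * p) * x)) := f_Y2 h cq cr cp
  rw [opB_class h cp cY k1, opB_class h cq (f_mul h cp cY) (opB_ker h _ _ k1)] at e1
  have e3 := congrArg (fun t => i x * t) e1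
  have kD := opB_ker h q (((x * p) * x) * Y2 i q (r * i x) ((x * p) * x))
    (opB_ker h ((x * p) * x) (Y2 i q (r * i x) ((x * p) * x)) k1)
  rw [← act h hX kD, comm h hX kD, act h kD hX, shiftV h hx, shiftU h hx] at e3
  rw [e2] at e3
  exact (opB_inj h.toSy _ _ (opB_inj h.toSy _ _ (h.cr e3))).symm

/-- First slot. -/
theorem slot1 (h : Ab f i) (hK : HK f i) {q r p x : Q} (hx : Ker f x) (hq : Mf q r p) (hg : Mf (q * r) r p) :
    psi i ((q * r) * x) r p = 1 := by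
  have hS := h.toSy
  have hX := ker_inv h hx
  have hq1 : psi i q r p = 1 := (mf_psi hS q r p).1 hq
  have hg1 : psi i (q * r) r p = 1 := (mf_psi hS _ r p).1 hg
  have crx : f (r * x) = f r := ker_mul' h hx
  have crX : f (r * i x) = f r := ker_mul' h hX
  have cp : f ((x * p) * x) = f p := (ker_mul' h hx).trans (ker_mul h hx)
  have cxq : f (x * q) = f q := ker_mul h hx
  have mid : ∀ a c : Q, mm i a 1 c = a * c := fun a c => by unfold mm; rw [hS.i1, hS.o2]
  -- (alpha)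
  have a1 : psi i ((x * q) * (r * x)) r p = psi i ((x * q) * r) r p * psi i (q * (r * x)) r p := by
    have e := psi_tm h ⟨(x * q) * r, q * r, q * (r * x), f_mul h cxq rfl, f_mul h rfl crx.symm⟩
      (cst f r) (cst f p)
    rw [tm_cst h, tm_cst h] at e
    have e2 : tm i (⟨(x * q) * r, q * r, q * (r * x), f_mul h cxq rfl, f_mul h rfl crx.symm⟩ : Tr f) =
        (x * q) * (r * x) := by
      have e3 := h.ab (x * q) q q r r (r * x) cxq rfl rfl crx.symm
      rw [mm_right hS, mm_left hS] at e3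
      exact e3.symm
    rw [e2] at e
    rw [e]
    show mm i _ (psi i (q * r) r p) _ = _
    rw [hg1, mid]
    rfl
  have a2 : psi i ((x * (q * r)) * x) r p = psi i (x * (q * r)) r p * psi i ((q * r) * x) r p := by
    have e := psi_tm h ⟨x * (q * r), q * r, (q * r) * x, ker_mul h hx, (ker_mul' h hx).symm⟩
      (cst f r) (cst f p)
    rw [tm_cst h, tm_cst h] at e
    have e2 : tm i (⟨x * (q * r), q * r, (q * r) * x, ker_mul h hx, (ker_mul' h hx).symm⟩ : Tr f) =
        (x * (q * r)) * x := by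
      have e3 := h.ab (x * (q * r)) (q * r) (q * r) 1 1 x (ker_mul h hx) rfl rfl hx.symm
      rw [mm_right hS, mm_left hS, hS.o2, hS.o2] at e3
      exact e3.symm
    rw [e2] at e
    rw [e]
    show mm i _ (psi i (q * r) r p) _ = _
    rw [hg1, mid]
    rfl
  have a3 : (x * (q * r)) * x = (x * q) * (r * x) := mf1 h hx q r
  rw [a3, a1] at a2
  -- (beta)
  have kxq := psi_ker h hK (x * q) r p
  have b1 : psi i ((x * q) * r) r p = opA i (Y2 i q r p) r (psi i (x * q) r p) := by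
    rw [psi_r hS]
    exact opA_class h (f_Y2 h cxq rfl rfl) rfl kxq
  -- (gamma)
  have kq := psi_ker h hK q (r * x) p
  have c1 : psi i (q * (r * x)) (r * x) p = opA i (Y2 i q r p) r (psi i q (r * x) p) := by
    rw [psi_r hS]
    exact opA_class h (f_Y2 h rfl crx rfl) crx kq
  have c2 : psi i (q * (r * x)) (r * x) p = psi i (q * (r * x)) r p * psi i (q * r) (r * x) p := by
    have e := psi_tm h ⟨q * (r * x), q * r, q * r, f_mul h rfl crx, rfl⟩ ⟨r, r, r * x, rfl, crx.symm⟩ (cst f p)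
    rw [tm_cst h] at e
    have e2 : tm i (⟨q * (r * x), q * r, q * r, f_mul h rfl crx, rfl⟩ : Tr f) = q * (r * x) := mm_right hS _ _
    have e3 : tm i (⟨r, r, r * x, rfl, crx.symm⟩ : Tr f) = r * x := mm_left hS _ _
    rw [e2, e3] at e
    rw [e]
    show mm i _ (psi i (q * r) r p) _ = _
    rw [hg1, mid]
    rfl
  -- decomposition of the shifted triple
  have dec : ∀ g : Q, psi i g r p = 1 → psi i (x * g) r p * psi i g (r * x) p = psi i g r ((x * p) * x) := by
    intro g hg'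
    have e := psi_tm h (cst f g) ⟨r * i x, r, r, crX, rfl⟩ ⟨p, p, (x * p) * x, rfl, cp.symm⟩
    rw [tm_cst h] at e
    have e2 : tm i (⟨r * i x, r, r, crX, rfl⟩ : Tr f) = r * i x := mm_right hS _ _
    have e3 : tm i (⟨p, p, (x * p) * x, rfl, cp.symm⟩ : Tr f) = (x * p) * x := mm_left hS _ _
    rw [e2, e3] at e
    have e4 : psi i g (r * i x) ((x * p) * x) = psi i g (r * i x) p * psi i g r ((x * p) * x) := by
      rw [e]
      show mm i _ (psi i g r p) _ = _
      rw [hg', mid]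
      rfl
    have e5 := psi_tm h (cst f g) ⟨r * i x, r, r * x, crX, crx.symm⟩ (cst f p)
    rw [tm_cst h, tm_cst h] at e5
    have e6 : tm i (⟨r * i x, r, r * x, crX, crx.symm⟩ : Tr f) = r := by
      have e7 := h.ab r r r (i x) 1 x rfl rfl hX hx.symm
      rw [mm_left hS, mid, hS.li, hS.o2] at e7
      exact e7.symm
    rw [e6, hg'] at e5
    have e8 : psi i g (r * i x) p * psi i g (r * x) p = 1 := by
      rw [e5]
      show _ = mm i _ (psi i g r p) _
      rw [hg', mid]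
      rfl
    rw [psi_shift h hK hx, e4]
    have k1 := psi_ker h hK g (r * i x) p
    have k2 := psi_ker h hK g r ((x * p) * x)
    have k3 := psi_ker h hK g (r * x) p
    rw [comm h k1 k2, act h k2 k1, e8, hS.o2]
  have d1 := dec (q * r) hg1
  have d2 := dec q hq1
  -- (zeta)
  have kz := psi_ker h hK q r ((x * p) * x)
  have z1 : psi i (q * r) r ((x * p) * x) = opA i (Y2 i q r p) r (psi i q r ((x * p) * x)) := by
    rw [psi_r hS]
    exact opA_class h (f_Y2 h rfl rfl cp) rfl kz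
  have e4 : opA i (Y2 i q r p) r (psi i q r ((x * p) * x)) =
      opA i (Y2 i q r p) r (psi i (x * q) r p) * opA i (Y2 i q r p) r (psi i q (r * x) p) := by
    rw [← d2]
    exact opA_add h _ _ kxq kq
  rw [b1] at a2
  rw [z1] at d1
  rw [c1] at c2
  exact alg h (opA_ker h _ _ kxq) (opA_ker h _ _ kq) (opA_ker h _ _ kz) (psi_ker h hK (x * (q * r)) r p)
    (psi_ker h hK (q * (r * x)) r p) (psi_ker h hK (q * r) (r * x) p) (psi_ker h hK ((q * r) * x) r p)
    a2 c2.symm d1 e4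

/-- A Moufang supplement: `H` is closed under products and inverses, all its triples are Moufang, and it meets
every class. -/
structure Sup (f : Q → K) (i : Q → Q) (H : Q → Prop) : Prop where
  mul : ∀ a b : Q, H a → H b → H (a * b)
  inv : ∀ a : Q, H a → H (i a)
  mf : ∀ a b c : Q, H a → H b → H c → Mf a b c
  cov : ∀ q : Q, ∃ a : Q, H a ∧ f a = f q

theorem hK_of (h : Ab f i) {H : Q → Prop} (hH : Sup f i H) : HK f i := by
  intro q r p
  obtain ⟨q', hq, eq⟩ := hH.cov q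
  obtain ⟨r', hr, er⟩ := hH.cov r
  obtain ⟨p', hp, ep⟩ := hH.cov p
  have h1 : f (Y1 i q r p) = f (Y1 i q' r' p') :=
    f_mul h (f_inv h ep.symm) (f_mul h (f_mul h er.symm ep.symm) eq.symm)
  have h2 := f_Y2 h eq.symm er.symm ep.symm
  rw [h1, h2]
  have := (mf_iff' h.toSy q' r' p').1 (hH.mf _ _ _ hq hr hp)
  exact congrArg f this

theorem first (h : Ab f i) {H : Q → Prop} (hH : Sup f i H) {g r p a : Q} (hg : H g) (hr : H r) (hp : H p)
    (ha : f a = f g) : Mf a r p := by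
  have hS := h.toSy
  have e : ((g * i r) * r) * (i g * a) = a := by rw [hS.r', hS.l']
  have hq : H (g * i r) := hH.mul _ _ hg (hH.inv _ hr)
  have k := slot1 h (hK_of h hH) (q := g * i r) (r := r) (p := p) (x := i g * a) (ker_quot' h ha)
    (hH.mf _ _ _ hq hr hp) (hH.mf _ _ _ (hH.mul _ _ hq hr) hr hp)
  rw [e] at k
  exact (mf_psi hS a r p).2 k

/-- **Main theorem.** -/
theorem all_mf (h : Ab f i) {H : Q → Prop} (hH : Sup f i H) (a b c : Q) : Mf a b c := by
  have hS := h.toSy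
  obtain ⟨g, hg, eg⟩ := hH.cov a
  obtain ⟨r, hr, er⟩ := hH.cov b
  obtain ⟨p, hp, ep⟩ := hH.cov c
  have m0 : psi i g r p = 1 := (mf_psi hS _ _ _).1 (hH.mf _ _ _ hg hr hp)
  have m1 : psi i a r p = 1 := (mf_psi hS _ _ _).1 (first h hH hg hr hp eg.symm)
  -- second slot: rotate `Mf b p g`
  have m2 : psi i g b p = 1 := (mf_psi hS _ _ _).1 (rot hS (rot hS (first h hH hr hp hg er.symm)))
  -- third slot: rotate `Mf c g r`
  have m3 : psi i g r c = 1 := (mf_psi hS _ _ _).1 (rot hS (first h hH hp hg hr ep.symm))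
  have mid : ∀ a c : Q, mm i a 1 c = a * c := fun a c => by unfold mm; rw [hS.i1, hS.o2]
  have e1 := psi_tm h (cst f g) ⟨b, r, r, er.symm, rfl⟩ ⟨p, p, c, rfl, ep⟩
  have f1 : tm i (⟨b, r, r, er.symm, rfl⟩ : Tr f) = b := mm_right hS _ _
  have f2 : tm i (⟨p, p, c, rfl, ep⟩ : Tr f) = c := mm_left hS _ _
  rw [tm_cst h, f1, f2] at e1
  have m4 : psi i g b c = 1 := by
    rw [e1]
    show mm i (psi i g b p) (psi i g r p) (psi i g r c) = 1
    rw [m0, m2, m3, mid, hS.o1]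
  have e2 := psi_tm h ⟨a, g, g, eg.symm, rfl⟩ ⟨r, r, b, rfl, er⟩ ⟨p, p, c, rfl, ep⟩
  have f3 : tm i (⟨a, g, g, eg.symm, rfl⟩ : Tr f) = a := mm_right hS _ _
  have f4 : tm i (⟨r, r, b, rfl, er⟩ : Tr f) = b := mm_left hS _ _
  rw [f3, f4, f2] at e2
  rw [mf_psi hS, e2]
  show mm i (psi i a r p) (psi i g r p) (psi i g b c) = 1
  rw [m0, m1, m4, mid, hS.o1]

end Pool.Agent.helper45.SAB
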