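import Pool.Agent.helper45.SAB.Ab

/-!
# Abelian kernels: all linear defects vanish

Helper file for `MP_e88537_al`.
-/

set_option autoImplicit false

universe u v

namespace Pool.Agent.helper45.SAB

open Pool.Agent.Results.MP_e88537_al.NilpotentLoops

variable {Q : Type u} [Mul Q] [One Q] {i : Q → Q} {K : Type v} [Mul K] {f : Q → K}

/-- Kernel elements satisfy the Moufang identity in the third slot. -/
theorem mf3 (h : Ab f i) {n : Q} (hn : Ker f n) (a g : Q) : Mf a g n := by
  rw [mf_iff h.toSy]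
  -- both sides are the difference term of a, (a g)(n g)', a
  have hg : f (g * n) = f g := ker_mul' h hn
  have hgi : f (i (g * n)) = f (i g) := f_inv h hg
  have e1 := h.ab (a * (g * n)) (a * g) (a * g) (i (g * n)) (i (g * n)) (i g)
    (f_mul h rfl hg) rfl rfl hgi
  rw [mm_right h.toSy, mm_left h.toSy, h.r, h.r] at e1
  -- e1 : (a (g n)) g' = mm a ((a g)(g n)') a
  have e2 := h.ab (a * g) (a * g) (a * g) (i g) (i (g * n)) (i g) rfl rfl hgi.symm hgi
  rw [mm_left h.toSy, h.r] at e2
  have e3 : mm i (i g) (i (g * n)) (i g) = n * i g := by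
    have e := h.ab 1 (i n) 1 (i g) (i g) (i g) (ker_inv h hn).symm (ker_inv h hn) rfl rfl
    rw [mm_left h.toSy, h.o1, ← h.im] at e
    rw [← e]
    unfold mm
    rw [h.ii, h.o1, h.o2]
  rw [e3] at e2
  rw [e1, e2]

theorem mf1 (h : Ab f i) {n : Q} (hn : Ker f n) (a g : Q) : Mf n a g :=
  rot h.toSy (rot h.toSy (mf3 h hn a g))

theorem mf2 (h : Ab f i) {n : Q} (hn : Ker f n) (a g : Q) : Mf a n g := rot h.toSy (mf3 h hn g a)

/-- Left Bol identity for kernel elements. -/
theorem bolL (h : Ab f i) {x : Q} (hx : Ker f x) (t v : Q) : ((x * t) * x) * v = x * (t * (x * v)) := by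
  have e := mf1 h hx (t * (x * v)) (i v * i x)
  unfold Mf at e
  rw [← h.im x v, h.r, h.im, h.r'] at e
  rw [e, h.r']

/-- Right Bol identity for kernel elements. -/
theorem bolR (h : Ab f i) {x : Q} (hx : Ker f x) (t v : Q) : ((v * x) * t) * x = v * ((x * t) * x) := by
  have e := mf1 h hx (i x * i v) ((v * x) * t)
  unfold Mf at e
  rw [← h.im v x, h.l, h.im, h.l'] at e
  have e1 := congrArg (fun w => v * w) e
  rw [h.l'] at e1
  exact e1.symm

theorem sqL (h : Ab f i) {x : Q} (hx : Ker f x) (v : Q) : x * (x * v) = (x * x) * v := by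
  have e := bolL h hx 1 v
  rw [h.o2, h.o1] at e
  exact e.symm

theorem sqR (h : Ab f i) {x : Q} (hx : Ker f x) (v : Q) : (v * x) * x = v * (x * x) := by
  have e := bolR h hx 1 v
  rw [h.o2, h.o2] at e
  exact e

theorem conjL (h : Ab f i) {x : Q} (hx : Ker f x) (u v : Q) :
    i x * (u * v) = ((i x * u) * i x) * (x * v) := by
  rw [bolL h (ker_inv h hx), h.l]

theorem conjM (h : Ab f i) {x : Q} (hx : Ker f x) (u v : Q) :
    (i x * (u * v)) * i x = (i x * u) * (v * i x) := mf1 h (ker_inv h hx) u v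

/-- The two sides of the Moufang identity. -/
def VV (q r p : Q) : Q := (q * (r * p)) * q

def UU (q r p : Q) : Q := (q * r) * (p * q)

theorem shiftV (h : Ab f i) {x : Q} (hx : Ker f x) (q r p : Q) :
    i x * VV (x * q) r p = VV q (r * i x) ((x * p) * x) := by
  unfold VV
  have hxx : Ker f (x * x) := ker_mm h hx hx
  have e1 : i x * (((x * q) * (r * p)) * (x * q)) = (q * ((r * p) * i x)) * ((x * x) * q) := by
    rw [conjL h hx, conjM h hx, h.l, sqL h hx]
  have e2 := mf3 h hxx q ((r * p) * i x)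
  unfold Mf at e2
  have e3 : ((r * p) * i x) * (x * x) = (r * p) * x := by
    rw [← sqR h hx, h.r']
  have e4 : (r * i x) * ((x * p) * x) = (r * p) * x := by
    rw [← bolR h hx, h.r']
  rw [e1, ← e2, e3, e4]

theorem shiftU (h : Ab f i) {x : Q} (hx : Ker f x) (q r p : Q) :
    i x * UU (x * q) r p = UU q (r * i x) ((x * p) * x) := by
  unfold UU
  rw [conjL h hx, conjM h hx, h.l, ← bolL h hx]

theorem VV_eq (h : Sy Q i) (q r p : Q) : VV q r p = q * (p * Y1 i q r p) := by
  unfold VV Y1
  rw [h.l', h.fl]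

theorem UU_eq (h : Sy Q i) (q r p : Q) : UU q r p = q * (p * Y2 i q r p) := by
  unfold UU Y2
  have e := h.s' q p (i p * r)
  rw [h.l'] at e
  exact e

/-- `Y1` and `Y2` commute with right multiplication by `r`. -/
theorem Y1_r (h : Sy Q i) (q r p : Q) : Y1 i (q * r) r p = Y1 i q r p * r := by
  unfold Y1
  have e := h.s' (i p) (r * p) q
  rw [h.r] at e
  exact e.symm

theorem Y2_r (h : Sy Q i) (q r p : Q) : Y2 i (q * r) r p = Y2 i q r p * r := by
  unfold Y2
  have e := h.s' (i p * r) p q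
  rw [h.l'] at e
  exact e.symm

theorem Y1_psi (h : Sy Q i) (q r p : Q) : Y1 i q r p = psi i q r p * Y2 i q r p := (h.r' _ _).symm

end Pool.Agent.helper45.SAB
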